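import Pool.Agent.Helper81.LT.Inc

/-!
MP_c20641_lc, packet PRR: primitive recursive relations are `Sg`.
-/

namespace Pool.Agent.Helper96.LT

open FirstOrder Language Pool.Agent.Helper81.LT

attribute [local instance] stdStr

section

variable {α β : Type}

theorem tmN_var (a : α) : TmN (fun v : α → ℕ => v a) := ⟨Term.var a, fun _ => rfl⟩

theorem tmN_one : TmN (fun _ : α → ℕ => 1) := ⟨1, fun _ => rfl⟩

theorem tmN_add {f g : (α → ℕ) → ℕ} (hf : TmN f) (hg : TmN g) : TmN (fun v => f v + g v) := by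
  obtain ⟨t, ht⟩ := hf
  obtain ⟨s, hs⟩ := hg
  refine ⟨t + s, fun v => ?_⟩
  have h := realize_tadd (M := ℕ) t s v
  exact h.trans (by rw [ht, hs])

theorem tmN_mul {f g : (α → ℕ) → ℕ} (hf : TmN f) (hg : TmN g) : TmN (fun v => f v * g v) := by
  obtain ⟨t, ht⟩ := hf
  obtain ⟨s, hs⟩ := hg
  refine ⟨t * s, fun v => ?_⟩
  have h := realize_tmul (M := ℕ) t s v
  exact h.trans (by rw [ht, hs])

theorem tmN_ap {f : (α → ℕ) → ℕ} (hf : TmN f) (g : α → β) :
    TmN (fun v : β → ℕ => f (fun a => v (g a))) := by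
  obtain ⟨t, ht⟩ := hf
  refine ⟨t.relabel g, fun v => ?_⟩
  rw [Term.realize_relabel]
  exact ht _

theorem sg_congr {P Q : (α → ℕ) → Prop} (hP : Sg P) (h : ∀ v, P v ↔ Q v) : Sg Q := by
  obtain ⟨φ, h1, h2⟩ := hP
  exact ⟨φ, h1, fun v => (h2 v).trans (h v)⟩

/-- the graph of the pairing function -/
theorem sg_pairG (h : SGCL) : Sg (fun v : Fin 3 → ℕ => Nat.pair (v 0) (v 1) = v 2) := by
  obtain ⟨h1, h2, h3, h4, -, -, -⟩ := h
  have k1 : Sg (fun v : Fin 3 → ℕ => (v 0 < v 1 ∧ v 2 = v 1 * v 1 + v 0) ∨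
      (v 1 < v 0 + 1 ∧ v 2 = v 0 * v 0 + v 0 + v 1)) := by
    refine h4 _ _ _ (h3 _ _ _ (h2 _ _ _ (tmN_var 0) (tmN_var 1))
      (h1 _ _ _ (tmN_var 2) (tmN_add (tmN_mul (tmN_var 1) (tmN_var 1)) (tmN_var 0))))
      (h3 _ _ _ (h2 _ _ _ (tmN_var 1) (tmN_add (tmN_var 0) tmN_one))
      (h1 _ _ _ (tmN_var 2) (tmN_add (tmN_add (tmN_mul (tmN_var 0) (tmN_var 0)) (tmN_var 0))
        (tmN_var 1))))
  refine sg_congr k1 fun v => ?_
  unfold Nat.pair
  by_cases hv : v 0 < v 1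
  · rw [if_pos hv]
    constructor
    · rintro (h | h)
      · exact h.2.symm
      · omega
    · intro h
      exact Or.inl ⟨hv, h.symm⟩
  · rw [if_neg hv]
    constructor
    · rintro (h | h)
      · omega
      · exact h.2.symm
    · intro h
      exact Or.inr ⟨by omega, h.symm⟩

/-- substitution of a pair -/
theorem sg_pair_ap (h : SGCL) {P : (α → ℕ) → ℕ → Prop} {f g : (α → ℕ) → ℕ} (hf : TmN f)
    (hg : TmN g)
    (hP : Sg (fun u : α ⊕ Unit → ℕ => P (fun a => u (Sum.inl a)) (u (Sum.inr ())))) :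
    Sg (fun v => P v (Nat.pair (f v) (g v))) := by
  have hG := sg_pairG h
  obtain ⟨-, -, h3, -, h5, -, h7⟩ := h
  have k : Sg (fun v => ∃ s, Nat.pair (f v) (g v) = s ∧ P v s) := by
    refine h5 _ (fun v s => Nat.pair (f v) (g v) = s ∧ P v s) ?_
    refine h3 _ _ _ ?_ hP
    exact h7 _ _ (fun v : Fin 3 → ℕ => Nat.pair (v 0) (v 1) = v 2)
      ![fun u => f (fun a => u (Sum.inl a)), fun u => g (fun a => u (Sum.inl a)),
        fun u => u (Sum.inr ())] hG (fun b => by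
          fin_cases b
          · exact tmN_ap hf _
          · exact tmN_ap hg _
          · exact tmN_var _)
  exact sg_congr k fun v => ⟨fun ⟨s, hs, hp⟩ => hs ▸ hp, fun hp => ⟨_, rfl, hp⟩⟩

end

theorem prr (h : SGCL) (hp : PRG) : PRR := by
  intro R hR
  classical
  obtain ⟨f, hf, hf1⟩ : ∃ f : ℕ → ℕ, Nat.Primrec f ∧
      ∀ a b x y, R a b x y ↔ f (Nat.pair a (Nat.pair b (Nat.pair x y))) = 1 := by
    refine ⟨fun n => if R n.unpair.1 n.unpair.2.unpair.1 n.unpair.2.unpair.2.unpair.1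
      n.unpair.2.unpair.2.unpair.2 then 1 else 0, ?_, fun a b x y => ?_⟩
    · refine Primrec.nat_iff.1 (Primrec.ite ?_ (Primrec.const 1) (Primrec.const 0))
      have e1 : Primrec fun n : ℕ => n.unpair.1 := Primrec.fst.comp Primrec.unpair
      have e2 : Primrec fun n : ℕ => n.unpair.2 := Primrec.snd.comp Primrec.unpair
      exact hR.comp (f := fun n : ℕ => (n.unpair.1, n.unpair.2.unpair.1,
        n.unpair.2.unpair.2.unpair.1, n.unpair.2.unpair.2.unpair.2))
        (e1.pair ((e1.comp e2).pair ((e1.comp (e2.comp e2)).pair (e2.comp (e2.comp e2)))))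
    · simp only [Nat.unpair_pair]
      by_cases hr : R a b x y
      · simp [hr]
      · simp [hr]
  have h5 := h.2.2.2.2.1
  have h7 := h.2.2.2.2.2.2
  refine h5 _ (fun v x => ∃ y, R (v 0) (v 1) x y) ?_
  refine h5 _ (fun u y => R (u (Sum.inl 0)) (u (Sum.inl 1)) (u (Sum.inr ())) y) ?_
  refine sg_congr (P := fun u => f (Nat.pair (u (Sum.inl (Sum.inl 0)))
    (Nat.pair (u (Sum.inl (Sum.inl 1))) (Nat.pair (u (Sum.inl (Sum.inr ())))
      (u (Sum.inr ()))))) = 1) ?_ fun u => (hf1 _ _ _ _).symm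
  refine sg_pair_ap h (P := fun u s => f (Nat.pair (u (Sum.inl (Sum.inl 0)))
    (Nat.pair (u (Sum.inl (Sum.inl 1))) s)) = 1) (tmN_var _) (tmN_var _) ?_
  refine sg_pair_ap h (P := fun u s => f (Nat.pair (u (Sum.inl (Sum.inl (Sum.inl 0)))) s) = 1)
    (tmN_var _) (tmN_var _) ?_
  refine sg_pair_ap h (P := fun _ s => f s = 1) (tmN_var _) (tmN_var _) ?_
  refine h7 _ _ (fun v : Fin 2 → ℕ => f (v 0) = v 1) ![fun u => u (Sum.inr ()), fun _ => 1]
    (hp f hf) (fun b => by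
      fin_cases b
      · exact tmN_var _
      · exact tmN_one)

end Pool.Agent.Helper96.LT
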