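import Pool.Agent.Helper81.LT.Comb

/-! Packet THMS: from pseudo-ultrametric spaces to separated ones. -/

set_option autoImplicit false

namespace Pool.Agent.Helper96.LT

open Pool.Agent.Helper81.LT

universe u

variable {Λ : Type u} [Lattice Λ] [BoundedOrder Λ]

theorem t_le {T : Sp Λ} {a a' b : T.A} (h : T.t a a' = ⊤) : T.t a b ≤ T.t a' b := by
  have h1 := T.tri a' a b
  rw [T.symm a' a, h, top_inf_eq] at h1
  exact h1

theorem t_eq {T : Sp Λ} {a a' b : T.A} (h : T.t a a' = ⊤) : T.t a b = T.t a' b :=
  le_antisymm (t_le h) (t_le (by rw [T.symm]; exact h))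

/-- the relation `t = ⊤` -/
def E (T : Sp Λ) : Setoid T.A where
  r a b := T.t a b = ⊤
  iseqv := ⟨T.refl, fun {a b} h => by rw [T.symm]; exact h, fun {a b c} h k => by
    rw [t_eq h]; exact k⟩

theorem t_eq2 (T : Sp Λ) (a b a' b' : T.A) (h : (E T) a a') (k : (E T) b b') :
    T.t a b = T.t a' b' := by
  have h1 : T.t a a' = ⊤ := h
  have k1 : T.t b b' = ⊤ := k
  rw [t_eq h1, T.symm a' b, t_eq k1, T.symm]

/-- the separated quotient -/
def sepQ (T : Sp Λ) : Sp Λ where
  A := Quotient (E T)
  fin := inferInstance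
  t := Quotient.lift₂ T.t (t_eq2 T)
  refl := fun a => by
    induction a using Quotient.inductionOn with
    | h a => exact T.refl a
  symm := fun a b => by
    induction a, b using Quotient.inductionOn₂ with
    | h a b => exact T.symm a b
  tri := fun a b c => by
    induction a, b, c using Quotient.inductionOn₃ with
    | h a b c => exact T.tri a b c

theorem thms (Λ : Type u) [Lattice Λ] [BoundedOrder Λ] (h : THMR Λ) : THMS Λ := by
  intro S _
  obtain ⟨T, hT⟩ := h S
  refine ⟨sepQ T, fun a b => ?_, fun Θ => ?_⟩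
  · induction a, b using Quotient.inductionOn₂ with
    | h a b =>
      intro hab
      exact Quotient.sound (s := E T) hab
  · obtain ⟨φ, s, h1, h2⟩ := hT (Setoid.comap (Quotient.mk (E T)) Θ) (fun a b hab => by
      have h3 : Quotient.mk (E T) a = Quotient.mk (E T) b := Quotient.sound (s := E T) hab
      show Θ (Quotient.mk (E T) a) (Quotient.mk (E T) b)
      rw [h3])
    exact ⟨fun a => Quotient.mk (E T) (φ a), s, fun a b => h1 a b, fun a b => h2 a b⟩

end Pool.Agent.Helper96.LT
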