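import Pool.Agent.Helper81.LT.Mod

/-!
MP_c20641_lc, packet TSPB: the definable `Λ`-valued ultrametric is definable.
-/

namespace Pool.Agent.Helper96.LT

open FirstOrder Language Pool.Agent.Helper81.LT

attribute [local instance] stdStr

section

variable {M : Type} [CommSemiring M] [LinearOrder M] {α : Type}

theorem dfn_Bt {f1 f2 f3 f4 : (α → M) → M} (h1 : Tm f1) (h2 : Tm f2) (h3 : Tm f3) (h4 : Tm f4) :
    Dfn (fun v => Bt (f1 v) (f2 v) (f3 v) (f4 v)) := by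
  unfold Bt
  refine Dfn.and (Dfn.lt h4 (Tm.one.add ((h3.add Tm.one).mul h2))) ?_
  refine Dfn.ex (P := fun v q => f1 v = q * (1 + (f3 v + 1) * f2 v) + f4 v) ?_
  exact Dfn.eq (h1.subst fun a => Tm.var (Sum.inl a))
    (((Tm.var (Sum.inr ())).mul (Tm.one.add (((h3.subst fun a => Tm.var (Sum.inl a)).add
      Tm.one).mul (h2.subst fun a => Tm.var (Sum.inl a))))).add
      (h4.subst fun a => Tm.var (Sum.inl a)))

theorem tm_pr {f g : (α → M) → M} (hf : Tm f) (hg : Tm g) : Tm (fun v => pr (f v) (g v)) :=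
  ((hf.add hg).mul (hf.add hg)).add hf

theorem tm_ap {f : (α → M) → M} (hf : Tm f) {β : Type} (g : α → β) :
    Tm (fun v : β → M => f (fun a => v (g a))) :=
  hf.subst fun a => Tm.var (g a)

end

section

variable {Λ : Type} [Lattice Λ] [BoundedOrder Λ] {M : Type} [CommSemiring M] [LinearOrder M]
  {α : Type}

/-- bounded quantification, in a convenient form -/
theorem dfn_ball {P : (α → M) → M → Prop} {f : (α → M) → M} (hf : Tm f)
    (hP : Dfn (fun u : α ⊕ Unit → M => P (fun a => u (Sum.inl a)) (u (Sum.inr ())))) :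
    Dfn (fun v : α → M => ∀ x : M, x < f v → P v x) :=
  Dfn.ball hf hP

theorem dfn_Val [Finite Λ] (c : Λ → ℕ) {f1 f2 f3 : (α → M) → M} (h1 : Tm f1) (h2 : Tm f2)
    (h3 : Tm f3) : Dfn (fun v => Val c (f1 v) (f2 v) (f3 v)) := by
  have key : Dfn (fun w : Fin 3 → M => Val c (w 0) (w 1) (w 2)) := by
    unfold Val
    refine Dfn.and ?_ (Dfn.and ?_ (Dfn.and ?_ (Dfn.and ?_ ?_)))
    · refine Dfn.ball (P := fun w i => ∀ j, j < w 2 → ∃ y : Λ, Bt (w 0) (w 1) (i * w 2 + j)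
        (c y : M)) (Tm.var 2) ?_
      refine Dfn.ball (P := fun u j => ∃ y : Λ, Bt (u (Sum.inl 0)) (u (Sum.inl 1))
        (u (Sum.inr ()) * u (Sum.inl 2) + j) (c y : M)) (Tm.var (Sum.inl 2)) ?_
      refine Dfn.exFin fun y => ?_
      exact dfn_Bt (Tm.var _) (Tm.var _) (((Tm.var _).mul (Tm.var _)).add (Tm.var _))
        (Tm.natCast _)
    · refine Dfn.ball (P := fun w i => Bt (w 0) (w 1) (i * w 2 + i) (c (⊤ : Λ) : M))
        (Tm.var 2) ?_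
      exact dfn_Bt (Tm.var _) (Tm.var _) (((Tm.var _).mul (Tm.var _)).add (Tm.var _))
        (Tm.natCast _)
    · refine Dfn.ball (P := fun w i => ∀ j, j < w 2 → Bt (w 0) (w 1) (i * w 2 + j)
        (c (⊤ : Λ) : M) → i = j) (Tm.var 2) ?_
      refine Dfn.ball (P := fun u j => Bt (u (Sum.inl 0)) (u (Sum.inl 1))
        (u (Sum.inr ()) * u (Sum.inl 2) + j) (c (⊤ : Λ) : M) → u (Sum.inr ()) = j)
        (Tm.var (Sum.inl 2)) ?_
      refine Dfn.imp ?_ (Dfn.eq (Tm.var _) (Tm.var _))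
      exact dfn_Bt (Tm.var _) (Tm.var _) (((Tm.var _).mul (Tm.var _)).add (Tm.var _))
        (Tm.natCast _)
    · refine Dfn.allFin fun y => ?_
      refine Dfn.ball (P := fun w i => ∀ j, j < w 2 → Bt (w 0) (w 1) (i * w 2 + j)
        (c y : M) → Bt (w 0) (w 1) (j * w 2 + i) (c y : M)) (Tm.var 2) ?_
      refine Dfn.ball (P := fun u j => Bt (u (Sum.inl 0)) (u (Sum.inl 1))
        (u (Sum.inr ()) * u (Sum.inl 2) + j) (c y : M) → Bt (u (Sum.inl 0)) (u (Sum.inl 1))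
        (j * u (Sum.inl 2) + u (Sum.inr ())) (c y : M)) (Tm.var (Sum.inl 2)) ?_
      refine Dfn.imp ?_ ?_
      · exact dfn_Bt (Tm.var _) (Tm.var _) (((Tm.var _).mul (Tm.var _)).add (Tm.var _))
          (Tm.natCast _)
      · exact dfn_Bt (Tm.var _) (Tm.var _) (((Tm.var _).mul (Tm.var _)).add (Tm.var _))
          (Tm.natCast _)
    · refine Dfn.allFin fun x => Dfn.allFin fun y => Dfn.allFin fun z => ?_
      refine Dfn.ball (P := fun w i => ∀ j, j < w 2 → ∀ l, l < w 2 → Bt (w 0) (w 1)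
        (i * w 2 + j) (c x : M) → Bt (w 0) (w 1) (j * w 2 + l) (c y : M) →
        Bt (w 0) (w 1) (i * w 2 + l) (c z : M) → x ⊓ y ≤ z) (Tm.var 2) ?_
      refine Dfn.ball (P := fun u j => ∀ l, l < u (Sum.inl 2) → Bt (u (Sum.inl 0))
        (u (Sum.inl 1)) (u (Sum.inr ()) * u (Sum.inl 2) + j) (c x : M) →
        Bt (u (Sum.inl 0)) (u (Sum.inl 1)) (j * u (Sum.inl 2) + l) (c y : M) →
        Bt (u (Sum.inl 0)) (u (Sum.inl 1)) (u (Sum.inr ()) * u (Sum.inl 2) + l) (c z : M) →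
        x ⊓ y ≤ z) (Tm.var (Sum.inl 2)) ?_
      refine Dfn.ball (P := fun u l => Bt (u (Sum.inl (Sum.inl 0)))
        (u (Sum.inl (Sum.inl 1))) (u (Sum.inl (Sum.inr ())) * u (Sum.inl (Sum.inl 2)) +
        u (Sum.inr ())) (c x : M) →
        Bt (u (Sum.inl (Sum.inl 0))) (u (Sum.inl (Sum.inl 1)))
        (u (Sum.inr ()) * u (Sum.inl (Sum.inl 2)) + l) (c y : M) →
        Bt (u (Sum.inl (Sum.inl 0))) (u (Sum.inl (Sum.inl 1)))
        (u (Sum.inl (Sum.inr ())) * u (Sum.inl (Sum.inl 2)) + l) (c z : M) →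
        x ⊓ y ≤ z) (Tm.var (Sum.inl (Sum.inl 2))) ?_
      refine Dfn.imp ?_ (Dfn.imp ?_ (Dfn.imp ?_ (Dfn.prop _)))
      · exact dfn_Bt (Tm.var _) (Tm.var _) (((Tm.var _).mul (Tm.var _)).add (Tm.var _))
          (Tm.natCast _)
      · exact dfn_Bt (Tm.var _) (Tm.var _) (((Tm.var _).mul (Tm.var _)).add (Tm.var _))
          (Tm.natCast _)
      · exact dfn_Bt (Tm.var _) (Tm.var _) (((Tm.var _).mul (Tm.var _)).add (Tm.var _))
          (Tm.natCast _)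
  exact key.subst (g := ![f1, f2, f3]) fun b => by fin_cases b <;> assumption

end

theorem tspb : TSPB := by
  intro Λ _ _ _ c M _ _ x
  unfold Near
  refine Dfn.or (Dfn.eq (Tm.var _) (Tm.var _)) (Dfn.or (Dfn.prop _) ?_)
  refine Dfn.ex (P := fun v a => ∃ b m i j : M, v 0 = pr (pr a b) (pr m i) ∧
    v 1 = pr (pr a b) (pr m j) ∧ i < m ∧ j < m ∧ Val c a b m ∧
    ∃ y : Λ, x ≤ y ∧ Bt a b (i * m + j) (c y : M)) ?_
  refine Dfn.ex (P := fun v b => ∃ m i j : M, v (Sum.inl 0) = pr (pr (v (Sum.inr ())) b)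
    (pr m i) ∧ v (Sum.inl 1) = pr (pr (v (Sum.inr ())) b) (pr m j) ∧ i < m ∧ j < m ∧
    Val c (v (Sum.inr ())) b m ∧
    ∃ y : Λ, x ≤ y ∧ Bt (v (Sum.inr ())) b (i * m + j) (c y : M)) ?_
  refine Dfn.ex (P := fun v m => ∃ i j : M, v (Sum.inl (Sum.inl 0)) =
    pr (pr (v (Sum.inl (Sum.inr ()))) (v (Sum.inr ())))
    (pr m i) ∧ v (Sum.inl (Sum.inl 1)) = pr (pr (v (Sum.inl (Sum.inr ()))) (v (Sum.inr ())))
    (pr m j) ∧ i < m ∧ j < m ∧
    Val c (v (Sum.inl (Sum.inr ()))) (v (Sum.inr ())) m ∧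
    ∃ y : Λ, x ≤ y ∧ Bt (v (Sum.inl (Sum.inr ()))) (v (Sum.inr ())) (i * m + j) (c y : M)) ?_
  refine Dfn.ex (P := fun v i => ∃ j : M, v (Sum.inl (Sum.inl (Sum.inl 0))) =
    pr (pr (v (Sum.inl (Sum.inl (Sum.inr ())))) (v (Sum.inl (Sum.inr ()))))
    (pr (v (Sum.inr ())) i) ∧ v (Sum.inl (Sum.inl (Sum.inl 1))) =
    pr (pr (v (Sum.inl (Sum.inl (Sum.inr ())))) (v (Sum.inl (Sum.inr ()))))
    (pr (v (Sum.inr ())) j) ∧ i < v (Sum.inr ()) ∧ j < v (Sum.inr ()) ∧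
    Val c (v (Sum.inl (Sum.inl (Sum.inr ())))) (v (Sum.inl (Sum.inr ()))) (v (Sum.inr ())) ∧
    ∃ y : Λ, x ≤ y ∧ Bt (v (Sum.inl (Sum.inl (Sum.inr ())))) (v (Sum.inl (Sum.inr ())))
      (i * v (Sum.inr ()) + j) (c y : M)) ?_
  refine Dfn.ex (P := fun v j => v (Sum.inl (Sum.inl (Sum.inl (Sum.inl 0)))) =
    pr (pr (v (Sum.inl (Sum.inl (Sum.inl (Sum.inr ()))))) (v (Sum.inl (Sum.inl (Sum.inr ())))))
    (pr (v (Sum.inl (Sum.inr ()))) (v (Sum.inr ()))) ∧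
    v (Sum.inl (Sum.inl (Sum.inl (Sum.inl 1)))) =
    pr (pr (v (Sum.inl (Sum.inl (Sum.inl (Sum.inr ()))))) (v (Sum.inl (Sum.inl (Sum.inr ())))))
    (pr (v (Sum.inl (Sum.inr ()))) j) ∧ v (Sum.inr ()) < v (Sum.inl (Sum.inr ())) ∧
    j < v (Sum.inl (Sum.inr ())) ∧
    Val c (v (Sum.inl (Sum.inl (Sum.inl (Sum.inr ()))))) (v (Sum.inl (Sum.inl (Sum.inr ()))))
      (v (Sum.inl (Sum.inr ()))) ∧
    ∃ y : Λ, x ≤ y ∧ Bt (v (Sum.inl (Sum.inl (Sum.inl (Sum.inr ())))))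
      (v (Sum.inl (Sum.inl (Sum.inr ()))))
      (v (Sum.inr ()) * v (Sum.inl (Sum.inr ())) + j) (c y : M)) ?_
  refine Dfn.and (Dfn.eq (Tm.var _) (tm_pr (tm_pr (Tm.var _) (Tm.var _))
    (tm_pr (Tm.var _) (Tm.var _)))) ?_
  refine Dfn.and (Dfn.eq (Tm.var _) (tm_pr (tm_pr (Tm.var _) (Tm.var _))
    (tm_pr (Tm.var _) (Tm.var _)))) ?_
  refine Dfn.and (Dfn.lt (Tm.var _) (Tm.var _)) ?_
  refine Dfn.and (Dfn.lt (Tm.var _) (Tm.var _)) ?_
  refine Dfn.and (dfn_Val c (Tm.var _) (Tm.var _) (Tm.var _)) ?_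
  refine Dfn.exFin fun y => ?_
  refine Dfn.and (Dfn.prop _) ?_
  exact dfn_Bt (Tm.var _) (Tm.var _) (((Tm.var _).mul (Tm.var _)).add (Tm.var _))
    (Tm.natCast _)

end Pool.Agent.Helper96.LT
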